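import Pool.Agent.P8H99.GO.Stm

/-! # OD/FIVE (helper94): lists of length five -/

set_option autoImplicit false

namespace Pool.Agent.P8H94.OD

open Finset
open Pool.Agent.P8H99.GO

/-- the multinomial coefficient as a product -/
theorem mult5 (h1 : ∀ s : List ℕ, mult s * (s.map Nat.factorial).prod = s.sum.factorial) (p x m y q : ℕ) :
    mult [p, x, m, y, q] = ((x + y) + (p + (q + m))).choose (x + y) *
      ((x + y).choose x * ((p + (q + m)).choose p * (q + m).choose q)) := by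
  have e := h1 [p, x, m, y, q]
  simp only [List.map_cons, List.map_nil, List.prod_cons, List.prod_nil, List.sum_cons, List.sum_nil] at e
  have aux : ∀ i j : ℕ, (i + j).choose i * i.factorial * j.factorial = (i + j).factorial := by
    intro i j
    rw [Nat.choose_symm_add]
    exact Nat.add_choose_mul_factorial_mul_factorial i j
  have a1 := aux (x + y) (p + (q + m))
  have a2 := aux x y
  have a3 := aux p (q + m)
  have a4 := aux q m
  have hs : p + (x + (m + (y + (q + 0)))) = (x + y) + (p + (q + m)) := by ring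
  rw [hs] at e
  have hpos : 0 < p.factorial * (x.factorial * (m.factorial * (y.factorial * (q.factorial * 1)))) := by positivity
  refine Nat.eq_of_mul_eq_mul_right hpos ?_
  rw [e, ← a1, ← a2, ← a3, ← a4]
  ring

theorem path5 (p x m y q : ℕ) : path [p, x, m, y, q] + (p * y + q * x) = (x + y) * (p + (q + m)) := by
  simp only [path]
  ring

theorem three : (3 : ℝ) ≤ (2 : ℝ) ^ (8 / 5 : ℝ) := by
  refine le_of_pow_le_pow_left₀ (n := 5) (by norm_num) (by positivity) ?_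
  rw [← Real.rpow_natCast ((2 : ℝ) ^ (8 / 5 : ℝ)), ← Real.rpow_mul (by norm_num)]
  norm_num

/-- the inequality for the three small binomial coefficients -/
theorem star (h4 : ∀ s : List ℕ, mult s ≤ s.length ^ s.sum) {C0 N0 : ℕ}
    (hK : ∀ E O x : ℕ, 1 ≤ x → N0 ≤ E + O → (E.choose x : ℝ) * (1 + (1 / 2 : ℝ) ^ x) ^ O ≤
      ((E + O : ℕ) : ℝ) ^ C0 * (2 : ℝ) ^ ((E : ℝ) + ((O : ℝ) - E) ^ 2 / 4))
    (p x m y q : ℕ) (hp : 1 ≤ p) (hx : 1 ≤ x) (hpq : p ≤ q)
    (hn0 : N0 ≤ (x + y) + (p + (q + m))) (hn8 : 8 ≤ (x + y) + (p + (q + m))) :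
    (((x + y).choose x * ((p + (q + m)).choose p * (q + m).choose q) : ℕ) : ℝ) ≤
      (((x + y) + (p + (q + m)) : ℕ) : ℝ) ^ (C0 + 3) *
        (2 : ℝ) ^ (((p * y + q * x : ℕ) : ℝ) + (((p + (q + m) : ℕ) : ℝ) - ((x + y : ℕ) : ℝ)) ^ 2 / 4) := by
  obtain ⟨E, hE⟩ : ∃ E, E = x + y := ⟨_, rfl⟩
  obtain ⟨O, hO⟩ : ∃ O, O = p + (q + m) := ⟨_, rfl⟩
  rw [← hE, ← hO]
  rw [← hE, ← hO] at hn0 hn8
  have hn8' : (8 : ℝ) ≤ ((E + O : ℕ) : ℝ) := by exact_mod_cast hn8
  set n : ℝ := ((E + O : ℕ) : ℝ) with hn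
  have hn1 : 1 ≤ n := by linarith
  have hEn : (E : ℝ) ≤ n := by rw [hn]; push_cast; linarith [(Nat.cast_nonneg O : (0 : ℝ) ≤ O)]
  have hOn : (O : ℝ) ≤ n := by rw [hn]; push_cast; linarith [(Nat.cast_nonneg E : (0 : ℝ) ≤ E)]
  have hB : ((E.choose x : ℕ) : ℝ) ≤ (2 : ℝ) ^ (E : ℝ) := by
    rw [Real.rpow_natCast]
    exact_mod_cast Nat.choose_le_two_pow E x
  have hEx : (E : ℝ) = x + y := by rw [hE]; push_cast; ring
  set D : ℝ := (O : ℝ) - E with hD
  rcases (by omega : p = 1 ∨ p = 2 ∨ 3 ≤ p) with h | h | h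
  · -- `p = 1`
    subst h
    obtain ⟨q', rfl⟩ : ∃ q', q = q' + 1 := ⟨q - 1, by omega⟩
    have hR : q' + 1 + m ≤ O := by omega
    have hc1 : ((O.choose 1 : ℕ) : ℝ) ≤ n := by
      rw [Nat.choose_one_right]
      exact hOn
    have hc2 : (((q' + 1 + m).choose (q' + 1) : ℕ) : ℝ) ≤ n * ((q' + 1 + m).choose q' : ℝ) := by
      have e := Nat.choose_succ_right_eq (q' + 1 + m) q'
      have e2 : (q' + 1 + m).choose (q' + 1) ≤ (q' + 1 + m).choose q' * (q' + 1 + m) := by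
        calc (q' + 1 + m).choose (q' + 1) ≤ (q' + 1 + m).choose (q' + 1) * (q' + 1) :=
              Nat.le_mul_of_pos_right _ (by omega)
          _ = (q' + 1 + m).choose q' * (q' + 1 + m - q') := e
          _ ≤ _ := Nat.mul_le_mul_left _ (by omega)
      have e3 : (((q' + 1 + m).choose (q' + 1) : ℕ) : ℝ) ≤
          ((q' + 1 + m).choose q' : ℝ) * ((q' + 1 + m : ℕ) : ℝ) := by exact_mod_cast e2
      have e4 : ((q' + 1 + m : ℕ) : ℝ) ≤ n := le_trans (by exact_mod_cast hR) hOn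
      calc _ ≤ _ := e3
        _ ≤ ((q' + 1 + m).choose q' : ℝ) * n := mul_le_mul_of_nonneg_left e4 (Nat.cast_nonneg _)
        _ = _ := mul_comm _ _
    set u : ℝ := (1 / 2 : ℝ) ^ x with hu
    have hu0 : 0 < u := by positivity
    have hc3 : ((q' + 1 + m).choose q' : ℝ) * u ^ q' ≤ (1 + u) ^ O := by
      have e1 : ((q' + 1 + m).choose q' : ℝ) * u ^ q' ≤ (u + 1) ^ (q' + 1 + m) := by
        rw [add_pow]
        have e := single_le_sum (s := range (q' + 1 + m + 1))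
          (f := fun i => u ^ i * 1 ^ (q' + 1 + m - i) * ((q' + 1 + m).choose i : ℝ))
          (fun i _ => by positivity) (mem_range.2 (by omega : q' < q' + 1 + m + 1))
        simp only [one_pow, mul_one] at e ⊢
        linarith
      have e2 : (u + 1) ^ (q' + 1 + m) ≤ (1 + u) ^ O := by
        rw [add_comm]
        exact pow_le_pow_right₀ (by linarith) hR
      exact e1.trans e2
    have hc4 : ((q' + 1 + m).choose q' : ℝ) ≤ (1 + u) ^ O * 2 ^ (x * q') := by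
      have e1 : u ^ q' * 2 ^ (x * q') = 1 := by
        rw [hu, ← pow_mul, ← mul_pow]
        norm_num
      calc ((q' + 1 + m).choose q' : ℝ) = ((q' + 1 + m).choose q' : ℝ) * u ^ q' * 2 ^ (x * q') := by
            rw [mul_assoc, e1, mul_one]
        _ ≤ _ := mul_le_mul_of_nonneg_right hc3 (by positivity)
    have hk := hK E O x hx hn0
    rw [← hn, ← hD, ← hu] at hk
    have e5 : (2 : ℝ) ^ (((1 * y + (q' + 1) * x : ℕ) : ℝ) + D ^ 2 / 4) =
        2 ^ (x * q') * (2 : ℝ) ^ ((E : ℝ) + D ^ 2 / 4) := by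
      rw [← Real.rpow_natCast (2 : ℝ) (x * q'), ← Real.rpow_add (by norm_num)]
      congr 1
      push_cast
      rw [hEx]
      ring
    rw [e5]
    push_cast
    have hO1 : (O.choose 1 : ℝ) ≤ n := hc1
    have hBx : (0 : ℝ) ≤ E.choose x := Nat.cast_nonneg _
    have hR0 : (0 : ℝ) ≤ (q' + 1 + m).choose q' := Nat.cast_nonneg _
    calc (E.choose x : ℝ) * ((O.choose 1 : ℝ) * ((q' + 1 + m).choose (q' + 1) : ℝ))
        ≤ (E.choose x : ℝ) * (n * (n * ((1 + u) ^ O * 2 ^ (x * q')))) := by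
          refine mul_le_mul_of_nonneg_left ?_ hBx
          refine mul_le_mul hO1 (hc2.trans (mul_le_mul_of_nonneg_left hc4 (by linarith))) (Nat.cast_nonneg _)
            (by linarith)
      _ = n ^ 2 * 2 ^ (x * q') * ((E.choose x : ℝ) * (1 + u) ^ O) := by ring
      _ ≤ n ^ 2 * 2 ^ (x * q') * (n ^ C0 * (2 : ℝ) ^ ((E : ℝ) + D ^ 2 / 4)) :=
          mul_le_mul_of_nonneg_left hk (by positivity)
      _ = n ^ (C0 + 2) * (2 ^ (x * q') * (2 : ℝ) ^ ((E : ℝ) + D ^ 2 / 4)) := by ring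
      _ ≤ n ^ (C0 + 3) * (2 ^ (x * q') * (2 : ℝ) ^ ((E : ℝ) + D ^ 2 / 4)) := by
          refine mul_le_mul_of_nonneg_right (pow_le_pow_right₀ hn1 (by omega)) (by positivity)
  · -- `p = 2`
    subst h
    have hc1 : ((O.choose 2 : ℕ) : ℝ) ≤ n ^ 2 := by
      have e : ((O.choose 2 : ℕ) : ℝ) ≤ (O : ℝ) ^ 2 := by exact_mod_cast Nat.choose_le_pow O 2
      exact e.trans (pow_le_pow_left₀ (Nat.cast_nonneg _) hOn 2)
    have hc2 : (((q + m).choose q : ℕ) : ℝ) ≤ (2 : ℝ) ^ (O : ℝ) := by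
      rw [Real.rpow_natCast]
      have e : (q + m).choose q ≤ 2 ^ O :=
        (Nat.choose_le_two_pow _ _).trans (Nat.pow_le_pow_right (by norm_num) (by omega))
      exact_mod_cast e
    have hexp : (2 : ℝ) ^ ((E : ℝ) + O) ≤ 2 * (2 : ℝ) ^ (((2 * y + q * x : ℕ) : ℝ) + D ^ 2 / 4) := by
      have e : (2 : ℝ) * (2 : ℝ) ^ (((2 * y + q * x : ℕ) : ℝ) + D ^ 2 / 4) =
          (2 : ℝ) ^ (1 + (((2 * y + q * x : ℕ) : ℝ) + D ^ 2 / 4)) := by
        rw [Real.rpow_add (by norm_num) 1 _, Real.rpow_one]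
      rw [e]
      refine Real.rpow_le_rpow_of_exponent_le (by norm_num) ?_
      have hq2 : (2 : ℝ) ≤ q := by exact_mod_cast hpq
      have hx0 : (0 : ℝ) ≤ x := Nat.cast_nonneg _
      have hOD : (O : ℝ) = E + D := by rw [hD]; ring
      push_cast
      rw [hOD, hEx]
      nlinarith [sq_nonneg (D / 2 - 1)]
    push_cast
    calc (E.choose x : ℝ) * ((O.choose 2 : ℝ) * ((q + m).choose q : ℝ))
        ≤ (2 : ℝ) ^ (E : ℝ) * (n ^ 2 * (2 : ℝ) ^ (O : ℝ)) := by gcongr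
      _ = n ^ 2 * (2 : ℝ) ^ ((E : ℝ) + O) := by rw [Real.rpow_add (by norm_num)]; ring
      _ ≤ n ^ 2 * (2 * (2 : ℝ) ^ (((2 * y + q * x : ℕ) : ℝ) + D ^ 2 / 4)) :=
          mul_le_mul_of_nonneg_left hexp (by positivity)
      _ ≤ n ^ 2 * (n * (2 : ℝ) ^ (((2 * y + q * x : ℕ) : ℝ) + D ^ 2 / 4)) := by
          gcongr
          linarith
      _ = n ^ 3 * (2 : ℝ) ^ (((2 * y + q * x : ℕ) : ℝ) + D ^ 2 / 4) := by ring
      _ ≤ n ^ (C0 + 3) * (2 : ℝ) ^ (((2 * y + q * x : ℕ) : ℝ) + D ^ 2 / 4) :=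
          mul_le_mul_of_nonneg_right (pow_le_pow_right₀ hn1 (by omega)) (by positivity)
      _ = _ := by push_cast; ring
  · -- `p ≥ 3`
    have hc1 : (((O.choose p * (q + m).choose q : ℕ)) : ℝ) ≤ (2 : ℝ) ^ (8 / 5 * (O : ℝ)) := by
      have e := h4 [p, q, m]
      have e1 : mult [p, q, m] = O.choose p * (q + m).choose q := by
        simp only [mult, List.sum_cons, List.sum_nil, add_zero, Nat.choose_self, mul_one]
        rw [hO]
      have e2 : [p, q, m].length ^ [p, q, m].sum = 3 ^ O := by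
        simp only [List.length_cons, List.length_nil, List.sum_cons, List.sum_nil, add_zero]
        rw [hO]
      rw [e1, e2] at e
      have e3 : ((O.choose p * (q + m).choose q : ℕ) : ℝ) ≤ (3 : ℝ) ^ O := by exact_mod_cast e
      refine e3.trans ?_
      rw [Real.rpow_mul (by norm_num), Real.rpow_natCast]
      exact pow_le_pow_left₀ (by norm_num) three O
    have hexp : (2 : ℝ) ^ ((E : ℝ) + 8 / 5 * O) ≤ 8 * (2 : ℝ) ^ (((p * y + q * x : ℕ) : ℝ) + D ^ 2 / 4) := by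
      have e : (8 : ℝ) * (2 : ℝ) ^ (((p * y + q * x : ℕ) : ℝ) + D ^ 2 / 4) =
          (2 : ℝ) ^ (3 + (((p * y + q * x : ℕ) : ℝ) + D ^ 2 / 4)) := by
        rw [Real.rpow_add (by norm_num) 3 _]
        congr 1
        norm_num
      rw [e]
      refine Real.rpow_le_rpow_of_exponent_le (by norm_num) ?_
      have hp3 : (3 : ℝ) ≤ p := by exact_mod_cast h
      have hq3 : (3 : ℝ) ≤ q := by exact_mod_cast h.trans hpq
      have hx0 : (0 : ℝ) ≤ x := Nat.cast_nonneg _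
      have hy0 : (0 : ℝ) ≤ y := Nat.cast_nonneg _
      have hOD : (O : ℝ) = E + D := by rw [hD]; ring
      push_cast
      rw [hOD, hEx]
      nlinarith [sq_nonneg (D / 2 - 8 / 5), mul_nonneg (sub_nonneg.2 hp3) hy0, mul_nonneg (sub_nonneg.2 hq3) hx0]
    calc ((E.choose x * (O.choose p * (q + m).choose q) : ℕ) : ℝ)
        = (E.choose x : ℝ) * ((O.choose p * (q + m).choose q : ℕ) : ℝ) := by push_cast; ring
      _ ≤ (2 : ℝ) ^ (E : ℝ) * (2 : ℝ) ^ (8 / 5 * (O : ℝ)) := by gcongr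
      _ = (2 : ℝ) ^ ((E : ℝ) + 8 / 5 * O) := by rw [Real.rpow_add (by norm_num)]
      _ ≤ 8 * (2 : ℝ) ^ (((p * y + q * x : ℕ) : ℝ) + D ^ 2 / 4) := hexp
      _ ≤ n * (2 : ℝ) ^ (((p * y + q * x : ℕ) : ℝ) + D ^ 2 / 4) := by gcongr
      _ = n ^ 1 * (2 : ℝ) ^ (((p * y + q * x : ℕ) : ℝ) + D ^ 2 / 4) := by rw [pow_one]
      _ ≤ n ^ (C0 + 3) * (2 : ℝ) ^ (((p * y + q * x : ℕ) : ℝ) + D ^ 2 / 4) :=
          mul_le_mul_of_nonneg_right (pow_le_pow_right₀ hn1 (by omega)) (by positivity)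

theorem five (hM : S_MUL) (hKey : S_KEY) : S_FIVE := by
  obtain ⟨h1, h2, h3, h4⟩ := hM
  obtain ⟨C0, N0, hK⟩ := hKey
  have main : ∀ p x m y q : ℕ, 1 ≤ p → 1 ≤ x → p ≤ q → max N0 8 ≤ [p, x, m, y, q].sum →
      (mult [p, x, m, y, q] : ℝ) * 2 ^ path [p, x, m, y, q] ≤ (([p, x, m, y, q].sum : ℕ) : ℝ) ^ (C0 + 3) *
        (2 : ℝ) ^ ((([p, x, m, y, q].sum : ℕ) : ℝ) ^ 2 / 4 + (7 - ((5 : ℕ) : ℝ)) / 2 * (([p, x, m, y, q].sum : ℕ) : ℝ)) := by
    intro p x m y q hp hx hpq hN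
    have hs : [p, x, m, y, q].sum = (x + y) + (p + (q + m)) := by
      simp only [List.sum_cons, List.sum_nil]
      ring
    rw [hs] at hN ⊢
    have hst := star h4 hK p x m y q hp hx hpq ((le_max_left _ _).trans hN) ((le_max_right _ _).trans hN)
    rw [mult5 h1]
    set A : ℕ := ((x + y) + (p + (q + m))).choose (x + y) with hA
    set B : ℕ := (x + y).choose x * ((p + (q + m)).choose p * (q + m).choose q) with hB
    set n : ℕ := (x + y) + (p + (q + m)) with hn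
    have hAn : (A : ℝ) ≤ (2 : ℝ) ^ (n : ℝ) := by
      rw [Real.rpow_natCast]
      exact_mod_cast Nat.choose_le_two_pow _ _
    have hp5 : ((path [p, x, m, y, q] : ℕ) : ℝ) + ((p * y + q * x : ℕ) : ℝ) =
        ((x + y : ℕ) : ℝ) * ((p + (q + m) : ℕ) : ℝ) := by
      exact_mod_cast path5 p x m y q
    have hnr : (n : ℝ) = ((x + y : ℕ) : ℝ) + ((p + (q + m) : ℕ) : ℝ) := by rw [hn]; push_cast; ring
    rw [← Real.rpow_natCast (2 : ℝ) (path [p, x, m, y, q])]
    push_cast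
    calc (A : ℝ) * (B : ℝ) * (2 : ℝ) ^ ((path [p, x, m, y, q] : ℕ) : ℝ)
        ≤ (2 : ℝ) ^ (n : ℝ) * ((n : ℝ) ^ (C0 + 3) * (2 : ℝ) ^ (((p * y + q * x : ℕ) : ℝ) +
          (((p + (q + m) : ℕ) : ℝ) - ((x + y : ℕ) : ℝ)) ^ 2 / 4)) *
            (2 : ℝ) ^ ((path [p, x, m, y, q] : ℕ) : ℝ) := by
          refine mul_le_mul_of_nonneg_right ?_ (by positivity)
          exact mul_le_mul hAn hst (Nat.cast_nonneg _) (by positivity)
      _ = (n : ℝ) ^ (C0 + 3) * (2 : ℝ) ^ ((n : ℝ) + (((p * y + q * x : ℕ) : ℝ) +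
          (((p + (q + m) : ℕ) : ℝ) - ((x + y : ℕ) : ℝ)) ^ 2 / 4) + ((path [p, x, m, y, q] : ℕ) : ℝ)) := by
          rw [Real.rpow_add (by norm_num) _ ((path [p, x, m, y, q] : ℕ) : ℝ),
            Real.rpow_add (by norm_num) (n : ℝ) _]
          ring
      _ = _ := by
          congr 2
          rw [hnr]
          linear_combination hp5
  refine ⟨C0 + 3, max N0 8, ?_⟩
  intro s hs hpos hN
  obtain ⟨p, x, m, y, q, rfl⟩ : ∃ p x m y q, s = [p, x, m, y, q] := by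
    match s, hs with
    | [p, x, m, y, q], _ => exact ⟨p, x, m, y, q, rfl⟩
  have hp := hpos p (by simp)
  have hx := hpos x (by simp)
  have hy := hpos y (by simp)
  have hq := hpos q (by simp)
  rcases le_total p q with h | h
  · exact main p x m y q hp hx h hN
  · have hr : [p, x, m, y, q].reverse = [q, y, m, x, p] := by simp
    have hsum : [q, y, m, x, p].sum = [p, x, m, y, q].sum := by
      simp only [List.sum_cons, List.sum_nil]
      ring
    have e := main q y m x p hq hy h (hsum ▸ hN)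
    rw [hsum] at e
    rw [← h2 [p, x, m, y, q], ← h3 [p, x, m, y, q], hr]
    exact e

end Pool.Agent.P8H94.OD
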